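import Mathlib
import Pool.Agent.Y546.WQ.Stm

set_option autoImplicit false
set_option linter.all false

/-! # Project WQ: the Stickelberger relation modulo the square of `1 - z` -/

namespace Pool.Agent.Y447.WQ

open NumberField IsDedekindDomain Pool.Agent.Y546.WQ

/-! ### a nilpotent element -/

section eps

variable {A : Type*} [CommRing A] {ε : A}

theorem eps_pow (h : ε ^ 2 = 0) (s : ℕ) : (1 - ε) ^ s = 1 - s * ε := by
  induction s with
  | zero => simp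
  | succ s ih =>
    rw [pow_succ, ih]
    push_cast
    linear_combination (s : A) * h

theorem eps_pow2 (h : ε ^ 2 = 0) (a b : A) (n : ℕ) :
    (a + b * ε) ^ (n + 1) = a ^ (n + 1) + (n + 1) * a ^ n * b * ε := by
  induction n with
  | zero => simp
  | succ n ih =>
    rw [pow_succ, ih]
    push_cast
    linear_combination ((n : A) + 1) * a ^ n * b ^ 2 * h

theorem eps_p (h : ε ^ 2 = 0) {p m : ℕ} (hp : p = 2 * m + 1)
    (h0 : ∑ s ∈ Finset.range p, (1 - ε) ^ s = 0) : (p : A) = 0 := by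
  have h1 : (∑ s ∈ Finset.range p, s) = p * m := by
    have h2 := Finset.sum_range_id_mul_two p
    have h3 : p * (p - 1) = (p * m) * 2 := by
      rw [hp, Nat.add_sub_cancel]
      ring
    omega
  have h4 : (p : A) - (p * m : ℕ) * ε = 0 := by
    rw [← h0, ← h1, Nat.cast_sum, Finset.sum_mul]
    rw [Finset.sum_congr rfl fun s _ => eps_pow h s, Finset.sum_sub_distrib, Finset.sum_const,
      Finset.card_range, nsmul_eq_mul, mul_one]
  push_cast at h4
  linear_combination (1 + (m : A) * ε) * h4 + (p : A) * (m : A) ^ 2 * h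

theorem eps_prod (h : ε ^ 2 = 0) {ι : Type*} (T : Finset ι) (s : ι → ℕ) (u w : A) :
    u * ∏ t ∈ T, (u - s t * w * ε) = u ^ T.card * (u - w * (∑ t ∈ T, s t : ℕ) * ε) := by
  classical
  induction T using Finset.induction_on with
  | empty => simp
  | insert t T ht ih =>
    rw [Finset.prod_insert ht, Finset.card_insert_of_notMem ht, Finset.sum_insert ht,
      mul_left_comm, ih]
    push_cast
    ring_nf
    linear_combination (u ^ T.card * w ^ 2 * (s t : A) * (∑ t ∈ T, (s t : A))) * h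

end eps

section

variable {p : ℕ} [Fact p.Prime] {C : Type} [Field C] [NumberField C]

/-- the root of unity as an integer -/
noncomputable def zz (c : Cyc p C) : 𝓞 C := ⟨c.z, c.prim.isIntegral (Fact.out : p.Prime).pos⟩

theorem zz_coe (c : Cyc p C) : ((zz c : 𝓞 C) : C) = c.z := rfl

theorem zz_prim (c : Cyc p C) : IsPrimitiveRoot (zz c) p := by
  apply IsPrimitiveRoot.of_map_of_injective (f := algebraMap (𝓞 C) C) _
    (FaithfulSMul.algebraMap_injective (𝓞 C) C)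
  exact c.prim

/-- one minus the root of unity -/
noncomputable def lm (c : Cyc p C) : 𝓞 C := 1 - zz c

theorem lm_ne (c : Cyc p C) : lm c ≠ 0 := by
  intro h
  have h1 : zz c = 1 := by
    unfold lm at h
    exact (sub_eq_zero.1 h).symm
  exact (zz_prim c).ne_one (Fact.out : p.Prime).one_lt h1

theorem lm_dvd_int (c : Cyc p C) (m : ℤ) (h : lm c ∣ (m : 𝓞 C)) : (p : ℤ) ∣ m := by
  obtain ⟨y, hy⟩ := h
  apply c.lam m
  refine ⟨(y : C), RingOfIntegers.isIntegral_coe y, ?_⟩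
  have h1 := congrArg (algebraMap (𝓞 C) C) hy
  rw [map_intCast, map_mul] at h1
  rw [h1]
  unfold lm
  rw [map_sub, map_one]
  rfl

/-- reduction modulo the square -/
noncomputable def rd (c : Cyc p C) : 𝓞 C →+* 𝓞 C ⧸ Ideal.span {(lm c) ^ 2} :=
  Ideal.Quotient.mk _

theorem rd_eq_zero (c : Cyc p C) (x : 𝓞 C) : rd c x = 0 ↔ (lm c) ^ 2 ∣ x := by
  unfold rd
  rw [Ideal.Quotient.eq_zero_iff_mem, Ideal.mem_span_singleton]

theorem rd_sq (c : Cyc p C) : rd c (lm c) ^ 2 = 0 := by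
  rw [← map_pow, rd_eq_zero]

theorem rd_z (c : Cyc p C) : rd c (zz c) = 1 - rd c (lm c) := by
  unfold lm
  rw [map_sub, map_one]
  ring

theorem rd_p (hp2 : p ≠ 2) (c : Cyc p C) : ((p : ℕ) : 𝓞 C ⧸ Ideal.span {(lm c) ^ 2}) = 0 := by
  obtain ⟨m, hm⟩ := (Fact.out : p.Prime).odd_of_ne_two hp2
  apply eps_p (rd_sq c) hm
  have h1 := (zz_prim c).geom_sum_eq_zero (Fact.out : p.Prime).one_lt
  have h2 := congrArg (rd c) h1
  rw [map_sum, map_zero] at h2
  rw [← h2]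
  refine Finset.sum_congr rfl fun s _ => ?_
  rw [map_pow, rd_z]

theorem rd_int (hp2 : p ≠ 2) (c : Cyc p C) (m : ℤ) (h : (p : ℤ) ∣ m) :
    rd c ((m : ℤ) : 𝓞 C) = 0 := by
  obtain ⟨d, rfl⟩ := h
  rw [Int.cast_mul, map_mul, Int.cast_natCast, map_natCast, rd_p hp2, zero_mul]

theorem lm_dvd_of (hp2 : p ≠ 2) (c : Cyc p C) (m : ℤ) (h : (p : ℤ) ∣ m) :
    lm c ∣ ((m : ℤ) : 𝓞 C) :=
  (dvd_pow_self (lm c) two_ne_zero).trans ((rd_eq_zero c _).1 (rd_int hp2 c m h))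

theorem rd_lin (hp2 : p ≠ 2) (c : Cyc p C) (k0 k1 : ℤ)
    (h : rd c ((k0 : ℤ) + (k1 : ℤ) * lm c) = 0) : (p : ℤ) ∣ k0 ∧ (p : ℤ) ∣ k1 := by
  have h0 : (p : ℤ) ∣ k0 := by
    apply lm_dvd_int c
    rw [rd_eq_zero] at h
    have h1 : lm c ∣ (k0 : 𝓞 C) + (k1 : 𝓞 C) * lm c := (dvd_pow_self (lm c) two_ne_zero).trans h
    exact (dvd_add_left (dvd_mul_left _ _)).1 h1
  refine ⟨h0, ?_⟩
  apply lm_dvd_int c
  rw [map_add, rd_int hp2 c k0 h0, zero_add, rd_eq_zero, pow_two] at h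
  exact (mul_dvd_mul_iff_right (lm_ne c)).1 h

theorem rd_form (c : Cyc p C) (y : 𝓞 C) : ∃ k0 k1 : ℤ, rd c y = (k0 : ℤ) + (k1 : ℤ) * rd c (lm c) := by
  obtain ⟨f, hf⟩ := c.gen (y : C) (RingOfIntegers.isIntegral_coe y)
  have hy : y = Polynomial.aeval (zz c) f := by
    apply FaithfulSMul.algebraMap_injective (𝓞 C) C
    rw [← Polynomial.aeval_algebraMap_apply]
    exact hf
  rw [hy]
  clear hy hf
  induction f using Polynomial.induction_on' with
  | add f g hf hg =>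
    obtain ⟨a, b, h1⟩ := hf
    obtain ⟨a', b', h2⟩ := hg
    refine ⟨a + a', b + b', ?_⟩
    rw [map_add, map_add, h1, h2]
    push_cast
    ring
  | monomial n a =>
    refine ⟨a, -(a * n), ?_⟩
    rw [Polynomial.aeval_monomial, map_mul, map_pow, rd_z, eps_pow (rd_sq c)]
    rw [show (algebraMap ℤ (𝓞 C)) a = ((a : ℤ) : 𝓞 C) from rfl, map_intCast]
    push_cast
    ring

theorem rd_pow (hp2 : p ≠ 2) (c : Cyc p C) (y : 𝓞 C) (k0 k1 : ℤ)
    (h : rd c y = (k0 : ℤ) + (k1 : ℤ) * rd c (lm c)) : rd c (y ^ p) = ((k0 ^ p : ℤ) : 𝓞 C ⧸ Ideal.span {(lm c) ^ 2}) := by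
  obtain ⟨m, hm⟩ : ∃ m, p = m + 1 := ⟨p - 1, by have := (Fact.out : p.Prime).pos; omega⟩
  have h1 := rd_p hp2 c
  rw [map_pow, h]
  have h2 := eps_pow2 (rd_sq c) (k0 : 𝓞 C ⧸ Ideal.span {(lm c) ^ 2}) (k1 : 𝓞 C ⧸ Ideal.span {(lm c) ^ 2}) m
  rw [← hm] at h2
  rw [h2]
  have h3 : ((m : 𝓞 C ⧸ Ideal.span {(lm c) ^ 2}) + 1) = 0 := by
    have h4 : ((m + 1 : ℕ) : 𝓞 C ⧸ Ideal.span {(lm c) ^ 2}) = 0 :=
      (congrArg (Nat.cast : ℕ → 𝓞 C ⧸ Ideal.span {(lm c) ^ 2}) hm).symm.trans h1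
    rw [← h4, Nat.cast_add, Nat.cast_one]
  rw [h3]
  push_cast
  ring

theorem dvd_form (hp2 : p ≠ 2) (c : Cyc p C) (y : 𝓞 C) (k0 k1 : ℤ)
    (h : rd c y = (k0 : ℤ) + (k1 : ℤ) * rd c (lm c)) : lm c ∣ y ↔ (p : ℤ) ∣ k0 := by
  have h1 : lm c ∣ y - ((k0 : 𝓞 C) + (k1 : 𝓞 C) * lm c) := by
    apply (dvd_pow_self (lm c) two_ne_zero).trans
    rw [← rd_eq_zero, map_sub, map_add, map_mul, map_intCast, map_intCast, h]
    ring
  constructor
  · intro h2
    apply lm_dvd_int c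
    have h3 := dvd_sub h2 h1
    rw [sub_sub_cancel] at h3
    exact (dvd_add_left (dvd_mul_left _ _)).1 h3
  · intro h2
    have h3 := dvd_add h1 (dvd_add (lm_dvd_of hp2 c k0 h2) (dvd_mul_left (lm c) (k1 : 𝓞 C)))
    rwa [sub_add_cancel] at h3

theorem lm_prime (hp2 : p ≠ 2) (c : Cyc p C) : Prime (lm c) := by
  refine ⟨lm_ne c, ?_, ?_⟩
  · intro h
    have h1 : lm c ∣ ((1 : ℤ) : 𝓞 C) := h.dvd
    have h2 := lm_dvd_int c 1 h1
    have h3 : (p : ℤ) = 1 := Int.eq_one_of_dvd_one (by positivity) h2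
    exact (Fact.out : p.Prime).one_lt.ne' (by exact_mod_cast h3)
  · intro x y hxy
    obtain ⟨a, a', ha⟩ := rd_form c x
    obtain ⟨b, b', hb⟩ := rd_form c y
    have hab : rd c (x * y) = ((a * b : ℤ) : 𝓞 C ⧸ Ideal.span {(lm c) ^ 2}) +
        ((a * b' + a' * b : ℤ) : 𝓞 C ⧸ Ideal.span {(lm c) ^ 2}) * rd c (lm c) := by
      rw [map_mul, ha, hb]
      push_cast
      linear_combination (a' : 𝓞 C ⧸ Ideal.span {(lm c) ^ 2}) * b' * rd_sq c
    rw [dvd_form hp2 c _ _ _ hab] at hxy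
    rw [dvd_form hp2 c _ _ _ ha, dvd_form hp2 c _ _ _ hb]
    exact (Nat.prime_iff_prime_int.1 (Fact.out : p.Prime)).dvd_or_dvd hxy

/-- the prime ideal -/
noncomputable def pl (hp2 : p ≠ 2) (c : Cyc p C) : HeightOneSpectrum (𝓞 C) where
  asIdeal := Ideal.span {lm c}
  isPrime := (Ideal.span_singleton_prime (lm_ne c)).2 (lm_prime hp2 c)
  ne_bot := by
    rw [Ne, Ideal.span_singleton_eq_bot]
    exact lm_ne c

/-- the number attached to an exponent -/
def ex (t : (ZMod p)ˣ) : ℕ := ((t⁻¹ : (ZMod p)ˣ) : ZMod p).val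

theorem th_eq (c : Cyc p C) (a b e n : ℤ) :
    th c (((a : C) + b * c.z + e * c.z ^ 2) / n) * (n : C) ^ (half p).card =
      if n = 0 then 0 ^ (half p).card * 0 ^ (half p).card else
      ((∏ t ∈ half p, ((a : 𝓞 C) + b * zz c ^ ex t + e * zz c ^ (2 * ex t)) : 𝓞 C) : C) := by
  split_ifs with hn
  · subst hn
    unfold th
    simp
  have hn' : (n : C) ≠ 0 := by exact_mod_cast hn
  unfold th
  have h1 : ∀ t ∈ half p, c.σ t⁻¹ (((a : C) + b * c.z + e * c.z ^ 2) / n) =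
      (((a : 𝓞 C) + b * zz c ^ ex t + e * zz c ^ (2 * ex t) : 𝓞 C) : C) / n := by
    intro t ht
    rw [map_div₀, map_add, map_add, map_mul, map_mul, map_pow, map_intCast, map_intCast,
      map_intCast, map_intCast, c.σ_z]
    congr 1
    show _ = algebraMap (𝓞 C) C ((a : 𝓞 C) + b * zz c ^ ex t + e * zz c ^ (2 * ex t))
    rw [map_add, map_add, map_mul, map_mul, map_pow, map_pow, map_intCast, map_intCast,
      map_intCast]
    show _ = (a : C) + b * c.z ^ ex t + e * c.z ^ (2 * ex t)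
    unfold ex
    ring
  rw [Finset.prod_congr rfl h1, Finset.prod_div_distrib, Finset.prod_const,
    div_mul_cancel₀ _ (pow_ne_zero _ hn')]
  exact (map_prod (algebraMap (𝓞 C) C) _ _).symm

end

theorem main : S_LAM := by
  intro p _ hp2 C _ _ c a b e n hn hu g hg i hrel
  have hn0 : n ≠ 0 := by
    rintro rfl
    exact hn (dvd_zero _)
  have h1 := th_eq c a b e n
  rw [if_neg hn0, hrel] at h1
  set q : 𝓞 C := ∏ t ∈ half p, ((a : 𝓞 C) + b * zz c ^ ex t + e * zz c ^ (2 * ex t)) with hq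
  set h := (half p).card with hh
  -- the relation for integers
  have h2 : ∃ A B : 𝓞 C, (¬ lm c ∣ A ∨ ¬ lm c ∣ B) ∧
      q * B ^ p = (n : 𝓞 C) ^ h * zz c ^ i * A ^ p := by
    obtain ⟨m, d, hmd⟩ := (pl hp2 c).exists_primeCompl_mul_eq_or_mul_eq g
    have hd : ¬ lm c ∣ (d : 𝓞 C) := by
      intro hcon
      exact d.2 (Ideal.mem_span_singleton.2 hcon)
    rcases hmd with hmd | hmd
    · refine ⟨m, d, Or.inr hd, ?_⟩
      apply FaithfulSMul.algebraMap_injective (𝓞 C) C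
      rw [map_mul, map_mul, map_mul, map_pow, map_pow, map_pow, map_pow, map_intCast, ← hmd]
      show (q : C) * _ = (n : C) ^ h * c.z ^ i * _
      rw [← h1]
      ring
    · refine ⟨d, m, Or.inl hd, ?_⟩
      apply FaithfulSMul.algebraMap_injective (𝓞 C) C
      rw [map_mul, map_mul, map_mul, map_pow, map_pow, map_pow, map_pow, map_intCast, ← hmd]
      show (q : C) * _ = (n : C) ^ h * c.z ^ i * _
      rw [← h1]
      ring
  obtain ⟨A, B, hAB, h3⟩ := h2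
  obtain ⟨a0, a1, ha⟩ := rd_form c A
  obtain ⟨b0, b1, hb⟩ := rd_form c B
  rw [dvd_form hp2 c _ _ _ ha, dvd_form hp2 c _ _ _ hb] at hAB
  have h4 := congrArg (rd c) h3
  rw [map_mul, rd_pow hp2 c B b0 b1 hb, map_mul, rd_pow hp2 c A a0 a1 ha, map_mul, map_pow,
    map_intCast, map_pow, rd_z, eps_pow (rd_sq c)] at h4
  have h5 : ((a + b + e : ℤ) : 𝓞 C ⧸ Ideal.span {(lm c) ^ 2}) * rd c q =
      ((a + b + e : ℤ) : 𝓞 C ⧸ Ideal.span {(lm c) ^ 2}) ^ h *
      (((a + b + e : ℤ) : 𝓞 C ⧸ Ideal.span {(lm c) ^ 2}) -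
        ((b + 2 * e : ℤ) : 𝓞 C ⧸ Ideal.span {(lm c) ^ 2}) * (∑ t ∈ half p, ex t : ℕ) *
          rd c (lm c)) := by
    rw [hh, ← eps_prod (rd_sq c), hq, map_prod]
    congr 1
    refine Finset.prod_congr rfl fun t _ => ?_
    rw [map_add, map_add, map_mul, map_mul, map_intCast, map_intCast, map_intCast, map_pow,
      map_pow, rd_z, eps_pow (rd_sq c), eps_pow (rd_sq c)]
    push_cast
    ring
  set S : ℕ := ∑ t ∈ half p, ex t with hS
  -- the linear relation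
  have h6 := rd_lin hp2 c ((a + b + e) ^ h * (a + b + e) * b0 ^ p - (a + b + e) * n ^ h * a0 ^ p)
    ((a + b + e) * n ^ h * i * a0 ^ p - (a + b + e) ^ h * (b + 2 * e) * S * b0 ^ p) (by
      rw [map_add, map_mul, map_intCast, map_intCast]
      push_cast
      push_cast at h4 h5
      linear_combination (-((b0 : 𝓞 C ⧸ Ideal.span {(lm c) ^ 2}) ^ p)) * h5 +
        ((a : 𝓞 C ⧸ Ideal.span {(lm c) ^ 2}) + b + e) * h4)
  obtain ⟨h7, h8⟩ := h6
  have hSS : (S : ZMod p) = hs p := by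
    rw [hS]
    push_cast
    unfold hs
    refine Finset.sum_congr rfl fun t _ => ?_
    unfold ex
    exact ZMod.natCast_zmod_val _
  rw [← hSS]
  have hpr : ∀ k : ℤ, (p : ℤ) ∣ k ↔ (k : ZMod p) = 0 := fun k =>
    (ZMod.intCast_zmod_eq_zero_iff_dvd k p).symm
  rw [hpr] at h7 h8 hn hu hAB
  rw [hpr] at hAB
  set u : ZMod p := ((a + b + e : ℤ) : ZMod p) with hu'
  set w : ZMod p := ((b + 2 * e : ℤ) : ZMod p) with hw'
  have e7 : u ^ h * u * (b0 : ZMod p) ^ p = u * (n : ZMod p) ^ h * (a0 : ZMod p) ^ p := by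
    rw [hu']
    push_cast at h7 ⊢
    linear_combination h7
  have e8 : u * (n : ZMod p) ^ h * i * (a0 : ZMod p) ^ p = u ^ h * w * S * (b0 : ZMod p) ^ p := by
    rw [hu', hw']
    push_cast at h8 ⊢
    linear_combination h8
  have e9 : u ^ h * (b0 : ZMod p) ^ p = (n : ZMod p) ^ h * (a0 : ZMod p) ^ p := by
    apply mul_left_cancel₀ hu
    linear_combination e7
  have hpp : p ≠ 0 := (Fact.out : p.Prime).ne_zero
  have ha0 : (a0 : ZMod p) ≠ 0 := by
    intro hcon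
    rcases hAB with h | h
    · exact h hcon
    · rw [hcon, zero_pow hpp, mul_zero] at e9
      rcases mul_eq_zero.1 e9 with h' | h'
      · exact pow_ne_zero _ hu h'
      · exact h (pow_eq_zero_iff hpp |>.1 h')
  have e10 : (n : ZMod p) ^ h * (a0 : ZMod p) ^ p ≠ 0 :=
    mul_ne_zero (pow_ne_zero _ hn) (pow_ne_zero _ ha0)
  apply mul_left_cancel₀ e10
  linear_combination e8 + w * S * e9

end Pool.Agent.Y447.WQ
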